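import Pool.Agent.Helper51.GP.N4a
import Pool.Agent.Helper58.GP.N4b
import Pool.Agent.Helper58.GP.N4c
import Pool.Agent.Helper58.GP.GGle
import Pool.Agent.Helper79.GP.N4d

/-!
# Block GP-N4 (helper51 for MP_1b5634_co): the pair count
-/

open Finset
open scoped Classical

namespace GPG

noncomputable section

namespace N4x

theorem sum_inv_sqrt (n : ℕ) : ∑ p ∈ Icc 1 n, (1 : ℝ) / √p ≤ 2 * √n := by
  induction n with
  | zero => simp
  | succ n ih =>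
    rw [Finset.sum_Icc_succ_top (by omega)]
    have h1 : (0 : ℝ) < √((n + 1 : ℕ) : ℝ) := Real.sqrt_pos.2 (by positivity)
    have h2 : √((n + 1 : ℕ) : ℝ) ^ 2 = (n : ℝ) + 1 := by
      rw [Real.sq_sqrt (by positivity)]; push_cast; ring
    have h3 : √(n : ℝ) ^ 2 = (n : ℝ) := Real.sq_sqrt (by positivity)
    have h4 : 0 ≤ √(n : ℝ) := Real.sqrt_nonneg _
    have h5 : 1 / √((n + 1 : ℕ) : ℝ) ≤ 2 * √((n + 1 : ℕ) : ℝ) - 2 * √(n : ℝ) := by
      rw [div_le_iff₀ h1]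
      nlinarith [sq_nonneg (√((n + 1 : ℕ) : ℝ) - √(n : ℝ))]
    linarith

theorem sum_inv_max (n : ℕ) :
    ∑ d ∈ Icc 1 n ×ˢ Icc 1 n, (1 : ℝ) / max (d.1 : ℝ) d.2 ≤ 4 * n := by
  have h1 : ∀ d ∈ Icc 1 n ×ˢ Icc 1 n, (1 : ℝ) / max (d.1 : ℝ) d.2 ≤
      (1 / √(d.1 : ℝ)) * (1 / √(d.2 : ℝ)) := by
    rintro ⟨p, q⟩ hd
    rw [mem_product, mem_Icc, mem_Icc] at hd
    simp only at hd ⊢
    have hp : (0 : ℝ) < p := by exact_mod_cast hd.1.1
    have hq : (0 : ℝ) < q := by exact_mod_cast hd.2.1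
    rw [div_mul_div_comm, one_mul, ← Real.sqrt_mul hp.le]
    apply one_div_le_one_div_of_le (Real.sqrt_pos.2 (mul_pos hp hq))
    rw [Real.sqrt_le_left (le_max_of_le_left hp.le)]
    have a1 : (p : ℝ) ≤ max (p : ℝ) q := le_max_left _ _
    have a2 : (q : ℝ) ≤ max (p : ℝ) q := le_max_right _ _
    calc (p : ℝ) * q ≤ max (p : ℝ) q * max (p : ℝ) q := by gcongr
      _ = max (p : ℝ) q ^ 2 := by ring
  calc ∑ d ∈ Icc 1 n ×ˢ Icc 1 n, (1 : ℝ) / max (d.1 : ℝ) d.2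
      ≤ ∑ d ∈ Icc 1 n ×ˢ Icc 1 n, (1 / √(d.1 : ℝ)) * (1 / √(d.2 : ℝ)) :=
        Finset.sum_le_sum h1
    _ = (∑ p ∈ Icc 1 n, 1 / √(p : ℝ)) * (∑ q ∈ Icc 1 n, 1 / √(q : ℝ)) := by
        rw [Finset.sum_mul_sum, Finset.sum_product]
    _ ≤ (2 * √n) * (2 * √n) := by
        have := sum_inv_sqrt n
        have h0 : 0 ≤ ∑ p ∈ Icc 1 n, 1 / √(p : ℝ) := Finset.sum_nonneg fun _ _ => by positivity
        gcongr
    _ = 4 * n := by
        have h3 : √(n : ℝ) * √(n : ℝ) = (n : ℝ) := Real.mul_self_sqrt (by positivity)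
        nlinarith

theorem sum_inv (n : ℕ) (_hn : 1 ≤ n) : ∑ q ∈ Icc 1 n, (1 : ℝ) / q ≤ 1 + Real.log n := by
  have h1 := harmonic_le_one_add_log n
  have h2 : ((harmonic n : ℚ) : ℝ) = ∑ q ∈ Icc 1 n, (1 : ℝ) / q := by
    rw [harmonic_eq_sum_Icc]
    push_cast
    apply Finset.sum_congr rfl
    intro q _
    rw [one_div]
  linarith

theorem sum_inv_sq (n : ℕ) : ∑ q ∈ Icc 1 n, (1 : ℝ) / (q : ℝ) ^ 2 ≤ 2 := by
  have key : ∀ n : ℕ, 1 ≤ n → ∑ q ∈ Icc 1 n, (1 : ℝ) / (q : ℝ) ^ 2 ≤ 2 - 1 / n := by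
    intro n hn
    induction n, hn using Nat.le_induction with
    | base => norm_num
    | succ n hn ih =>
      rw [Finset.sum_Icc_succ_top (by omega)]
      have hn' : (0 : ℝ) < n := by exact_mod_cast hn
      have h1 : (1 : ℝ) / ((n + 1 : ℕ) : ℝ) ^ 2 ≤ 1 / n - 1 / ((n + 1 : ℕ) : ℝ) := by
        push_cast
        rw [div_sub_div _ _ hn'.ne' (by positivity), div_le_div_iff₀ (by positivity) (by positivity)]
        nlinarith
      linarith
  rcases Nat.eq_zero_or_pos n with h | h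
  · rw [h]; simp
  · have := key n h
    have h2 : (0 : ℝ) ≤ 1 / n := by positivity
    linarith

/-- the homogeneous function -/
def ww (α β : ℝ) (p q : ℕ) : ℝ := Dd β (min β (α * q / p)) ^ 2 / (q : ℝ) ^ 2

theorem ww_nonneg (α β : ℝ) (p q : ℕ) : 0 ≤ ww α β p q := by unfold ww; positivity

theorem ww_hom (α β : ℝ) (g p q : ℕ) (hg : 1 ≤ g) (hp : 1 ≤ p) (hq : 1 ≤ q) :
    ww α β (g * p) (g * q) = ww α β p q / (g : ℝ) ^ 2 := by
  unfold ww
  have hg' : (g : ℝ) ≠ 0 := by positivity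
  have hp' : (p : ℝ) ≠ 0 := by positivity
  have hq' : (q : ℝ) ≠ 0 := by positivity
  have h1 : α * ((g * q : ℕ) : ℝ) / ((g * p : ℕ) : ℝ) = α * q / p := by
    push_cast
    field_simp
  rw [h1]
  push_cast
  field_simp

theorem ww_le (α β : ℝ) (hα : 0 ≤ α) (hα1 : α ≤ 1) (hβ : 0 < β) (hβ1 : β ≤ 1) (p q : ℕ)
    (hp : 1 ≤ p) (hq : 1 ≤ q) : ww α β p q ≤ 4 / (max (p : ℝ) q) ^ 2 := by
  unfold ww
  have hp' : (0 : ℝ) < p := by exact_mod_cast hp
  have hq' : (0 : ℝ) < q := by exact_mod_cast hq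
  have hr0 : 0 ≤ min β (α * q / p) := le_min hβ.le (by positivity)
  have h1 := N4b_Dd_nonneg β _ hβ1 hr0 (min_le_left _ _)
  have h2 := N4b_Dd_le β _ hβ1 hr0 (min_le_left _ _)
  have hm : 0 < max (p : ℝ) q := lt_max_of_lt_left hp'
  have h3 : min β (α * q / p) * max (p : ℝ) q ≤ q := by
    rcases le_total (p : ℝ) q with h | h
    · rw [max_eq_right h]
      have : min β (α * q / p) ≤ 1 := (min_le_left _ _).trans hβ1
      nlinarith
    · rw [max_eq_left h]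
      have h4 : min β (α * q / p) ≤ α * q / p := min_le_right _ _
      calc min β (α * q / p) * p ≤ α * q / p * p := by gcongr
        _ = α * q := by field_simp
        _ ≤ q := by nlinarith
  rw [div_le_div_iff₀ (by positivity) (by positivity)]
  have h5 : Dd β (min β (α * q / p)) * max (p : ℝ) q ≤ 2 * q := by nlinarith
  calc Dd β (min β (α * q / p)) ^ 2 * max (p : ℝ) q ^ 2
      = (Dd β (min β (α * q / p)) * max (p : ℝ) q) ^ 2 := by ring
    _ ≤ (2 * (q : ℝ)) ^ 2 := by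
        apply pow_le_pow_left₀ _ h5
        positivity
    _ = 4 * (q : ℝ) ^ 2 := by ring

theorem sum_ww (α β : ℝ) (hα : 0 ≤ α) (hα1 : α ≤ 1) (hβ : 0 < β) (hβ1 : β ≤ 1) (n : ℕ)
    (hn : 1 ≤ n) :
    ∑ d ∈ Icc 1 n ×ˢ Icc 1 n, ww α β d.1 d.2 ≤ α * GG β * (1 + Real.log n) + 8 := by
  rw [Finset.sum_product_right]
  have h1 : ∀ q ∈ Icc 1 n, ∑ p ∈ Icc 1 n, ww α β p q ≤
      α * GG β * (1 / (q : ℝ)) + 4 * (1 / (q : ℝ) ^ 2) := by
    intro q hq
    rw [mem_Icc] at hq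
    have hq' : (0 : ℝ) < q := by exact_mod_cast hq.1
    unfold ww
    rw [← Finset.sum_div]
    have := NT4c α β hα hα1 hβ hβ1 n q hq.1
    rw [div_le_iff₀ (by positivity)]
    refine this.trans (le_of_eq ?_)
    field_simp
  refine (Finset.sum_le_sum h1).trans ?_
  rw [Finset.sum_add_distrib, ← Finset.mul_sum, ← Finset.mul_sum]
  have hG := (GG_le β hβ.le hβ1).1
  have h2 := sum_inv n hn
  have h3 := sum_inv_sq n
  have h4 : α * GG β * ∑ q ∈ Icc 1 n, 1 / (q : ℝ) ≤ α * GG β * (1 + Real.log n) := by gcongr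
  linarith

end N4x

open N4x

theorem NT4 : ∃ n0 : ℕ, ∀ n ≥ n0, ∀ M : ℕ, 1 ≤ M → ∀ w < n ^ 2,
    XX (Qup n M w) (fun p => rho n p.1 * rho n p.2) (range (n ^ 2)) ≤
      0.998 * (n : ℝ) ^ 2 * Real.log n := by
  obtain ⟨C, hC⟩ := NT4d (3 / 10000) (by norm_num)
  set A : ℝ := 6 / Real.pi ^ 2 + 3 / 10000 with hA
  have hπ : 6 / Real.pi ^ 2 ≤ 0.608 := by
    rw [div_le_iff₀ (by positivity)]
    nlinarith [Real.pi_gt_d4]
  have hπ' : 6 / Real.pi ^ 2 ≤ 0.60797 := by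
    rw [div_le_iff₀ (by positivity)]
    nlinarith [Real.pi_gt_d4]
  have hA0 : 0 ≤ A := by positivity
  have hA1 : A ≤ 0.60827 := by rw [hA]; linarith
  -- the constant
  set B : ℝ := 1 / 2 * (A * (3.28 + 16) + 2 * C + 72) with hB
  obtain ⟨n0, hn0⟩ : ∃ n0 : ℕ, ∀ n ≥ n0, B ≤ 0.0004 * Real.log n := by
    have h1 : Filter.Tendsto (fun n : ℕ => 0.0004 * Real.log n) Filter.atTop Filter.atTop := by
      apply Filter.Tendsto.const_mul_atTop (by norm_num)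
      exact Real.tendsto_log_atTop.comp tendsto_natCast_atTop_atTop
    exact Filter.eventually_atTop.1 (h1.eventually_ge_atTop B)
  refine ⟨max n0 1, ?_⟩
  intro n hn M hM w hw
  have hn1 : 1 ≤ n := (le_max_right _ _).trans hn
  have hnB := hn0 n ((le_max_left _ _).trans hn)
  have hn' : (0 : ℝ) < n := by exact_mod_cast hn1
  have hlog : 0 ≤ Real.log n := Real.log_nonneg (by exact_mod_cast hn1)
  refine (NT4a n M w hn1 hM hw).trans ?_
  set b := w / n with hb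
  have hbn : b < n := by
    rw [hb, Nat.div_lt_iff_lt_mul hn1]
    calc w < n ^ 2 := hw
      _ = n * n := by ring
  have hW : w % n < n := Nat.mod_lt _ hn1
  set X1 := n - 1 - w % n with hX1
  set X2 := w % n with hX2
  have hX12 : X1 + X2 + 1 = n := by omega
  set β : ℝ := ((b : ℝ) + 1 / 2) / n with hβdef
  set α1 : ℝ := (X1 : ℝ) / n with hα1def
  set α2 : ℝ := (X2 : ℝ) / n with hα2def
  have hβ : 0 < β := by positivity
  have hβ1 : β ≤ 1 := by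
    rw [hβdef, div_le_one hn']
    have : (b : ℝ) + 1 ≤ n := by exact_mod_cast hbn
    linarith
  have hα1 : 0 ≤ α1 := by positivity
  have hα2 : 0 ≤ α2 := by positivity
  have hα12 : α1 + α2 ≤ 1 := by
    rw [hα1def, hα2def, ← add_div, div_le_one hn']
    have : (X1 : ℝ) + X2 + 1 = n := by exact_mod_cast hX12
    linarith
  have hG := GG_le β hβ.le hβ1
  let cop := (Icc 1 n ×ˢ Icc 1 n).filter (fun d => Nat.Coprime d.1 d.2)
  have hterm : ∀ d ∈ cop, SS n X1 b d.1 d.2 ^ 2 + SS n X2 b d.1 d.2 ^ 2 ≤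
      (n : ℝ) ^ 2 * (ww α1 β d.1 d.2 + ww α2 β d.1 d.2) +
        (16 * n * (1 / max (d.1 : ℝ) d.2) + 8) := by
    intro d hd
    have hd' := (mem_filter.1 hd).1
    rw [mem_product, mem_Icc, mem_Icc] at hd'
    have h1 := NT4b n X1 b d.1 d.2 (by omega) hbn hd'.1.1 hd'.2.1
    have h2 := NT4b n X2 b d.1 d.2 (by omega) hbn hd'.1.1 hd'.2.1
    unfold ww
    have e : 16 * (n : ℝ) * (1 / max (d.1 : ℝ) d.2) =
      8 * n / max (d.1 : ℝ) d.2 + 8 * n / max (d.1 : ℝ) d.2 := by ring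
    rw [e]
    linarith
  have hsum : ∑ d ∈ cop, (SS n X1 b d.1 d.2 ^ 2 + SS n X2 b d.1 d.2 ^ 2) ≤
      (n : ℝ) ^ 2 * (∑ d ∈ cop, ww α1 β d.1 d.2 + ∑ d ∈ cop, ww α2 β d.1 d.2) +
        72 * (n : ℝ) ^ 2 := by
    refine (Finset.sum_le_sum hterm).trans ?_
    rw [Finset.sum_add_distrib, ← Finset.mul_sum, Finset.sum_add_distrib]
    have h1 : ∑ d ∈ cop, (16 * (n : ℝ) * (1 / max (d.1 : ℝ) d.2) + 8) ≤
        ∑ d ∈ Icc 1 n ×ˢ Icc 1 n, (16 * (n : ℝ) * (1 / max (d.1 : ℝ) d.2) + 8) := by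
      apply Finset.sum_le_sum_of_subset_of_nonneg (Finset.filter_subset _ _)
      intro d _ _
      positivity
    have h2 : ∑ d ∈ Icc 1 n ×ˢ Icc 1 n, (16 * (n : ℝ) * (1 / max (d.1 : ℝ) d.2) + 8) ≤
        72 * (n : ℝ) ^ 2 := by
      rw [Finset.sum_add_distrib, ← Finset.mul_sum]
      have h3 := sum_inv_max n
      have h4 : ∑ d ∈ Icc 1 n ×ˢ Icc 1 n, (8 : ℝ) = 8 * (n : ℝ) ^ 2 := by
        rw [Finset.sum_const, Finset.card_product, Nat.card_Icc, nsmul_eq_mul]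
        push_cast
        ring
      rw [h4]
      have h5 : 16 * (n : ℝ) * ∑ d ∈ Icc 1 n ×ˢ Icc 1 n, 1 / max (d.1 : ℝ) d.2 ≤
          16 * n * (4 * n) := by gcongr
      linarith
    linarith
  have hw1 : ∑ d ∈ cop, ww α1 β d.1 d.2 ≤ A * (α1 * GG β * (1 + Real.log n) + 8) + C := by
    refine (hC (ww α1 β) (ww_nonneg α1 β) (ww_hom α1 β)
      (ww_le α1 β hα1 (by linarith) hβ hβ1) n).trans ?_
    have := sum_ww α1 β hα1 (by linarith) hβ hβ1 n hn1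
    gcongr
  have hw2 : ∑ d ∈ cop, ww α2 β d.1 d.2 ≤ A * (α2 * GG β * (1 + Real.log n) + 8) + C := by
    refine (hC (ww α2 β) (ww_nonneg α2 β) (ww_hom α2 β)
      (ww_le α2 β hα2 (by linarith) hβ hβ1) n).trans ?_
    have := sum_ww α2 β hα2 (by linarith) hβ hβ1 n hn1
    gcongr
  have hfin : A * (α1 * GG β * (1 + Real.log n) + 8) + C +
      (A * (α2 * GG β * (1 + Real.log n) + 8) + C) ≤
      A * 3.28 * (1 + Real.log n) + A * 16 + 2 * C := by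
    have h1 : (α1 + α2) * GG β ≤ 3.28 := by nlinarith [hG.1, hG.2]
    have h2 : (α1 + α2) * GG β * (1 + Real.log n) ≤ 3.28 * (1 + Real.log n) := by gcongr
    have h3 := mul_le_mul_of_nonneg_left h2 hA0
    linarith
  have hn2 : 0 < (n : ℝ) ^ 2 := by positivity
  have hmain : ∑ d ∈ cop, (SS n X1 b d.1 d.2 ^ 2 + SS n X2 b d.1 d.2 ^ 2) ≤
      (n : ℝ) ^ 2 * (A * 3.28 * (1 + Real.log n) + A * 16 + 2 * C + 72) := by
    refine hsum.trans ?_
    have : (n : ℝ) ^ 2 * (∑ d ∈ cop, ww α1 β d.1 d.2 + ∑ d ∈ cop, ww α2 β d.1 d.2) ≤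
        (n : ℝ) ^ 2 * (A * 3.28 * (1 + Real.log n) + A * 16 + 2 * C) := by
      apply mul_le_mul_of_nonneg_left _ hn2.le
      linarith
    linarith
  have hA2 : A * 3.28 * Real.log n ≤ 0.60827 * 3.28 * Real.log n := by gcongr
  calc 1 / 2 * ∑ d ∈ cop, (SS n X1 b d.1 d.2 ^ 2 + SS n X2 b d.1 d.2 ^ 2)
      ≤ 1 / 2 * ((n : ℝ) ^ 2 * (A * 3.28 * (1 + Real.log n) + A * 16 + 2 * C + 72)) := by
        linarith
    _ = (n : ℝ) ^ 2 * (1 / 2 * (A * 3.28 * Real.log n) + B) := by rw [hB]; ring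
    _ ≤ (n : ℝ) ^ 2 * (0.998 * Real.log n) := by
        apply mul_le_mul_of_nonneg_left _ hn2.le
        nlinarith
    _ = 0.998 * (n : ℝ) ^ 2 * Real.log n := by ring

end

end GPG
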