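import Pool.Agent.Helper96.GP.NDefs

/-!
# Block GP-N4a (helper51 for MP_1b5634_co): pairs on rays
-/

open Finset
open scoped Classical

namespace GPG

noncomputable section

namespace N4a

theorem rhoh_nonneg {y : ℝ} (h0 : 0 ≤ y) (_h1 : y ≤ 1) : 0 ≤ rhoh y := by
  rw [rhoh_eq]
  nlinarith [mul_nonneg (sq_nonneg (1 - y)) (by linarith : (0 : ℝ) ≤ 1 + 2 * y)]

theorem rho_nonneg {n t : ℕ} (hn : 0 < n) (ht : t < n ^ 2) : 0 ≤ rho n t := by
  unfold rho
  have hn' : (0 : ℝ) < n := by exact_mod_cast hn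
  have h1 : t / n < n := by
    rw [Nat.div_lt_iff_lt_mul hn]
    calc t < n ^ 2 := ht
      _ = n * n := by ring
  apply rhoh_nonneg
  · positivity
  · rw [div_le_one hn']
    have : ((t / n : ℕ) : ℝ) + 1 ≤ n := by exact_mod_cast h1
    linarith

/-- the arithmetic of a ray -/
theorem ray {A C A' C' : ℕ} (hA : 0 < A) (hC : 0 < C) (h : A' * C = A * C') :
    ∃ p q k l, 1 ≤ p ∧ 1 ≤ q ∧ Nat.Coprime p q ∧ 1 ≤ k ∧ A = k * p ∧ C = k * q ∧
      A' = l * p ∧ C' = l * q := by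
  obtain ⟨p, q, hpq, hp, hq⟩ := Nat.exists_coprime A C
  have hg : 0 < Nat.gcd A C := Nat.gcd_pos_of_pos_left _ hA
  set g := Nat.gcd A C with hgdef
  have hp0 : 1 ≤ p := by
    rcases Nat.eq_zero_or_pos p with h0 | h0
    · rw [h0, zero_mul] at hp; omega
    · exact h0
  have hq0 : 1 ≤ q := by
    rcases Nat.eq_zero_or_pos q with h0 | h0
    · rw [h0, zero_mul] at hq; omega
    · exact h0
  have h2 : A' * q = p * C' := by
    have h3 : g * (A' * q) = g * (p * C') := by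
      calc g * (A' * q) = A' * (q * g) := by ring
        _ = A' * C := by rw [← hq]
        _ = A * C' := h
        _ = (p * g) * C' := by rw [← hp]
        _ = g * (p * C') := by ring
    exact Nat.eq_of_mul_eq_mul_left hg h3
  have h4 : q ∣ C' := (Nat.Coprime.dvd_of_dvd_mul_left hpq.symm) ⟨A', by rw [← h2]; ring⟩
  obtain ⟨l, hl⟩ := h4
  refine ⟨p, q, g, l, hp0, hq0, hpq, hg, by rw [hp]; ring, by rw [hq]; ring, ?_, by rw [hl]; ring⟩
  have h5 : q * A' = q * (l * p) := by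
    rw [hl] at h2
    calc q * A' = A' * q := by ring
      _ = p * (q * l) := h2
      _ = q * (l * p) := by ring
  exact Nat.eq_of_mul_eq_mul_left (by omega) h5

/-- index set of a ray -/
def KI (X b : ℕ) (d : ℕ × ℕ) : Finset ℕ :=
  (range (b + 1)).filter (fun k => 1 ≤ k ∧ k * d.2 ≤ b ∧ k * d.1 ≤ X)

theorem half_sq (K : Finset ℕ) (f : ℕ → ℝ) :
    ∑ q ∈ (K ×ˢ K).filter (fun q => q.2 < q.1), f q.1 * f q.2 ≤ 1 / 2 * (∑ k ∈ K, f k) ^ 2 := by
  have h1 : (∑ k ∈ K, f k) ^ 2 = ∑ q ∈ K ×ˢ K, f q.1 * f q.2 := by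
    rw [sq, Finset.sum_mul_sum, Finset.sum_product]
  have h2 : ∑ q ∈ K ×ˢ K, f q.1 * f q.2 =
      ∑ q ∈ (K ×ˢ K).filter (fun q => q.2 < q.1), f q.1 * f q.2 +
      ∑ q ∈ (K ×ˢ K).filter (fun q => ¬ q.2 < q.1), f q.1 * f q.2 :=
    (Finset.sum_filter_add_sum_filter_not _ _ _).symm
  have h3 : ∑ q ∈ (K ×ˢ K).filter (fun q => ¬ q.2 < q.1), f q.1 * f q.2 =
      ∑ q ∈ ((K ×ˢ K).filter (fun q => ¬ q.2 < q.1)).filter (fun q => q.1 < q.2), f q.1 * f q.2 +
      ∑ q ∈ ((K ×ˢ K).filter (fun q => ¬ q.2 < q.1)).filter (fun q => ¬ q.1 < q.2),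
        f q.1 * f q.2 :=
    (Finset.sum_filter_add_sum_filter_not _ _ _).symm
  have h4 : ∑ q ∈ ((K ×ˢ K).filter (fun q => ¬ q.2 < q.1)).filter (fun q => q.1 < q.2),
      f q.1 * f q.2 = ∑ q ∈ (K ×ˢ K).filter (fun q => q.2 < q.1), f q.1 * f q.2 := by
    refine Finset.sum_bij' (fun q _ => (q.2, q.1)) (fun q _ => (q.2, q.1)) ?_ ?_ ?_ ?_ ?_
    · rintro ⟨a, b⟩ h
      simp only [mem_filter, mem_product] at h ⊢
      exact ⟨⟨h.1.1.2, h.1.1.1⟩, h.2⟩
    · rintro ⟨a, b⟩ h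
      simp only [mem_filter, mem_product] at h ⊢
      exact ⟨⟨⟨h.1.2, h.1.1⟩, by omega⟩, h.2⟩
    · rintro ⟨a, b⟩ _; rfl
    · rintro ⟨a, b⟩ _; rfl
    · rintro ⟨a, b⟩ _; exact mul_comm _ _
  have h5 : 0 ≤ ∑ q ∈ ((K ×ˢ K).filter (fun q => ¬ q.2 < q.1)).filter (fun q => ¬ q.1 < q.2),
        f q.1 * f q.2 := by
    apply Finset.sum_nonneg
    rintro ⟨a, b⟩ h
    simp only [mem_filter, mem_product] at h
    have : a = b := by omega
    subst this
    exact mul_self_nonneg _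
  rw [h1, h2, h3, h4]
  linarith

theorem sum_image_le' {ι κ : Type*} [DecidableEq κ] (T : Finset ι) (g : ι → κ) (F : κ → ℝ)
    (hF : ∀ t ∈ T, 0 ≤ F (g t)) : ∑ y ∈ T.image g, F y ≤ ∑ t ∈ T, F (g t) := by
  have h0 : ∑ t ∈ T, F (g t) = ∑ y ∈ T.image g, (T.filter (fun a => g a = y)).card • F y :=
    Finset.sum_comp F g
  rw [h0]
  apply Finset.sum_le_sum
  intro y hy
  obtain ⟨t, ht, rfl⟩ := mem_image.1 hy
  have h1 : 1 ≤ (T.filter (fun a => g a = g t)).card :=
    Finset.card_pos.2 ⟨t, mem_filter.2 ⟨ht, rfl⟩⟩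
  rw [nsmul_eq_mul]
  have h2 : (1 : ℝ) ≤ (T.filter (fun a => g a = g t)).card := by exact_mod_cast h1
  nlinarith [hF t ht]

/-- the points of a ray to the right -/
def pR (n w : ℕ) (d : ℕ × ℕ) (k : ℕ) : ℕ := (w % n + k * d.1) + (w / n - k * d.2) * n
/-- the points of a ray to the left -/
def pL (n w : ℕ) (d : ℕ × ℕ) (k : ℕ) : ℕ := (w % n - k * d.1) + (w / n - k * d.2) * n

theorem lt_sq {n w a c : ℕ} (hw : w < n ^ 2) (ha : a < n) (hc : c ≤ w / n) :
    a + c * n < n ^ 2 ∧ (a + c * n) / n = c := by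
  have hn : 0 < n := by omega
  have h1 : w / n < n := by
    rw [Nat.div_lt_iff_lt_mul hn]
    calc w < n ^ 2 := hw
      _ = n * n := by ring
  constructor
  · calc a + c * n < n + c * n := by omega
      _ = (c + 1) * n := by ring
      _ ≤ n * n := Nat.mul_le_mul_right n (by omega)
      _ = n ^ 2 := by ring
  · rw [Nat.add_mul_div_right _ _ hn, Nat.div_eq_of_lt ha, zero_add]

theorem rho_pt {n w a k : ℕ} {d : ℕ × ℕ} (hw : w < n ^ 2) (ha : a < n) (hk : k * d.2 ≤ w / n) :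
    rho n (a + (w / n - k * d.2) * n) =
      rhoh ((((w / n : ℕ) : ℝ) + 1 / 2 - k * d.2) / n) := by
  unfold rho
  rw [(lt_sq hw ha (Nat.sub_le _ _)).2, Nat.cast_sub hk]
  congr 2
  push_cast
  ring

/-- index set of the pairs on rays -/
def TT (n X b : ℕ) : Finset (Σ _ : ℕ × ℕ, ℕ × ℕ) :=
  ((Icc 1 n ×ˢ Icc 1 n).filter (fun d => Nat.Coprime d.1 d.2)).sigma
    (fun d => ((KI X b d) ×ˢ (KI X b d)).filter (fun q => q.2 < q.1))

theorem mem_TT {n X b : ℕ} {t : Σ _ : ℕ × ℕ, ℕ × ℕ} : t ∈ TT n X b ↔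
    ((t.1.1 ∈ Icc 1 n ∧ t.1.2 ∈ Icc 1 n) ∧ Nat.Coprime t.1.1 t.1.2) ∧
      (t.2.1 ∈ KI X b t.1 ∧ t.2.2 ∈ KI X b t.1) ∧ t.2.2 < t.2.1 := by
  unfold TT
  rw [mem_sigma, mem_filter, mem_product, mem_filter, mem_product]

theorem mem_KI {X b : ℕ} {d : ℕ × ℕ} {k : ℕ} : k ∈ KI X b d ↔
    k < b + 1 ∧ 1 ≤ k ∧ k * d.2 ≤ b ∧ k * d.1 ≤ X := by
  unfold KI
  rw [mem_filter, mem_range]

theorem sum_TT (n X b : ℕ) :
    ∑ t ∈ TT n X b, rhoh (((b : ℝ) + 1 / 2 - t.2.1 * t.1.2) / n) *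
      rhoh (((b : ℝ) + 1 / 2 - t.2.2 * t.1.2) / n) ≤
    1 / 2 * ∑ d ∈ (Icc 1 n ×ˢ Icc 1 n).filter (fun d => Nat.Coprime d.1 d.2),
      SS n X b d.1 d.2 ^ 2 := by
  unfold TT
  rw [Finset.sum_sigma, Finset.mul_sum]
  apply Finset.sum_le_sum
  intro d _
  exact half_sq (KI X b d) (fun k => rhoh (((b : ℝ) + 1 / 2 - k * d.2) / n))

theorem self_div (a : ℕ) : a / a ≤ 1 := by
  rcases Nat.eq_zero_or_pos a with h | h
  · rw [h]; simp
  · rw [Nat.div_self h]

theorem pd_le_one {n a b : ℕ} (h : px n b = px n a ∨ py n b = py n a) : pd n a b ≤ 1 := by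
  unfold pd DD gg
  rcases h with h | h
  · rw [h, sub_self]
    simp only [Int.natAbs_zero, zero_le, sup_of_le_right, Int.gcd_zero_left]
    exact self_div _
  · rw [h, sub_self]
    simp only [Int.natAbs_zero, zero_le, sup_of_le_left, Int.gcd_zero_right]
    exact self_div _

end N4a

open N4a

theorem NT4a (n M w : ℕ) (hn : 0 < n) (hM : 1 ≤ M) (hw : w < n ^ 2) :
    XX (Qup n M w) (fun p => rho n p.1 * rho n p.2) (range (n ^ 2)) ≤
      1 / 2 * ∑ d ∈ (Icc 1 n ×ˢ Icc 1 n).filter (fun d => Nat.Coprime d.1 d.2),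
        (SS n (n - 1 - w % n) (w / n) d.1 d.2 ^ 2 + SS n (w % n) (w / n) d.1 d.2 ^ 2) := by
  set b := w / n with hb
  set W0 := w % n with hW0
  have hW0n : W0 < n := Nat.mod_lt _ hn
  have hwe : W0 + b * n = w := by rw [hW0, hb, mul_comm]; exact Nat.mod_add_div w n
  let F : ℕ × ℕ → ℝ := fun p => rho n p.1 * rho n p.2
  let gR : (Σ _ : ℕ × ℕ, ℕ × ℕ) → ℕ × ℕ := fun t => (pR n w t.1 t.2.1, pR n w t.1 t.2.2)
  let gL : (Σ _ : ℕ × ℕ, ℕ × ℕ) → ℕ × ℕ := fun t => (pL n w t.1 t.2.1, pL n w t.1 t.2.2)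
  have hsub : (Qup n M w).filter (fun q => q.1 ∈ range (n ^ 2) ∧ q.2 ∈ range (n ^ 2)) ⊆
      (TT n (n - 1 - W0) b).image gR ∪ (TT n W0 b).image gL := by
    rintro ⟨x, z⟩ hxz
    rw [mem_filter] at hxz
    obtain ⟨hQ, hx2, hz2⟩ := hxz
    unfold Qup at hQ
    rw [mem_filter, mem_product, mem_range, mem_range] at hQ
    obtain ⟨⟨hxw, hzw⟩, hxz, hdet, hpd⟩ := hQ
    simp only at hxw hzw hxz hdet hpd
    set x0 := x % n with hx0
    set x1 := x / n with hx1
    set z0 := z % n with hz0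
    set z1 := z / n with hz1
    have hx0n : x0 < n := Nat.mod_lt _ hn
    have hz0n : z0 < n := Nat.mod_lt _ hn
    have hxe : x0 + x1 * n = x := by rw [hx0, hx1, mul_comm]; exact Nat.mod_add_div x n
    have hze : z0 + z1 * n = z := by rw [hz0, hz1, mul_comm]; exact Nat.mod_add_div z n
    have hx1b : x1 ≤ b := Nat.div_le_div_right hxw.le
    have hz1b : z1 ≤ b := Nat.div_le_div_right hzw.le
    have hxz1 : x1 ≤ z1 := Nat.div_le_div_right hxz.le
    have hne : ¬ (px n x = px n w ∨ py n x = py n w) := fun h => by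
      have := pd_le_one (n := n) (a := w) (b := x) h
      omega
    push Not at hne
    obtain ⟨hne0, hne1⟩ := hne
    have hne0' : x0 ≠ W0 := fun h => hne0 (by unfold px; rw [← hx0, ← hW0, h])
    have hne1' : x1 ≠ b := fun h => hne1 (by unfold py; rw [← hx1, ← hb, h])
    have hd : ((x0 : ℤ) - W0) * ((z1 : ℤ) - b) - ((z0 : ℤ) - W0) * ((x1 : ℤ) - b) = 0 := hdet
    have hbn : b < n := by
      rw [hb, Nat.div_lt_iff_lt_mul hn]
      calc w < n ^ 2 := hw
        _ = n * n := by ring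
    have hC : 0 < b - x1 := by omega
    have hCz : ((b - x1 : ℕ) : ℤ) = (b : ℤ) - x1 := Nat.cast_sub hx1b
    have hCz' : ((b - z1 : ℕ) : ℤ) = (b : ℤ) - z1 := Nat.cast_sub hz1b
    rw [mem_union, mem_image, mem_image]
    clear_value x0 x1 z0 z1
    rcases lt_or_gt_of_ne hne0' with hlt | hgt
    · -- to the left
      right
      have hz0W : z0 ≤ W0 := by
        by_contra hcon
        push Not at hcon
        have h1 : ((x0 : ℤ) - W0) < 0 := by have : (x0 : ℤ) < W0 := by exact_mod_cast hlt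
                                            linarith
        have h2 : ((z0 : ℤ) - W0) > 0 := by have : (W0 : ℤ) < z0 := by exact_mod_cast hcon
                                            linarith
        have h3 : ((x1 : ℤ) - b) < 0 := by
          have : (x1 : ℤ) < b := by exact_mod_cast (by omega : x1 < b)
          linarith
        have h4 : ((z1 : ℤ) - b) ≤ 0 := by
          have : (z1 : ℤ) ≤ b := by exact_mod_cast hz1b
          linarith
        nlinarith [mul_nonneg_of_nonpos_of_nonpos h1.le h4, mul_pos_of_neg_of_neg (neg_neg_of_pos h2) h3]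
      have hA : 0 < W0 - x0 := by omega
      have hAz : ((W0 - x0 : ℕ) : ℤ) = (W0 : ℤ) - x0 := Nat.cast_sub hlt.le
      have hAz' : ((W0 - z0 : ℕ) : ℤ) = (W0 : ℤ) - z0 := Nat.cast_sub hz0W
      have hprod : (W0 - z0) * (b - x1) = (W0 - x0) * (b - z1) := by
        have : (((W0 - z0) * (b - x1) : ℕ) : ℤ) = (((W0 - x0) * (b - z1) : ℕ) : ℤ) := by
          rw [Nat.cast_mul, Nat.cast_mul, hCz, hCz', hAz, hAz']
          linear_combination -hd
        exact_mod_cast this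
      obtain ⟨p, q, k, l, hp, hq, hcop, hk, eA, eC, eA', eC'⟩ := ray hA hC hprod
      have hpk : p ≤ k * p := Nat.le_mul_of_pos_left _ hk
      have hqk : q ≤ k * q := Nat.le_mul_of_pos_left _ hk
      have hkk : k ≤ k * q := Nat.le_mul_of_pos_right _ hq
      have hl : 1 ≤ l := by
        rcases Nat.eq_zero_or_pos l with h0 | h0
        · exfalso
          rw [h0, zero_mul] at eA' eC'
          have e1 : z0 = W0 := by omega
          have e2 : z1 = b := by omega
          have : z = w := by rw [← hze, ← hwe, e1, e2]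
          omega
        · exact h0
      have hlk : l < k := by
        have h1 : l * q ≤ k * q := by omega
        have h2 : l ≤ k := Nat.le_of_mul_le_mul_right h1 hq
        refine lt_of_le_of_ne h2 (fun h => ?_)
        rw [h] at eA' eC'
        have e1 : z0 = x0 := by omega
        have e2 : z1 = x1 := by omega
        have : z = x := by rw [← hze, ← hxe, e1, e2]
        omega
      have hlk1 : l * p ≤ k * p := Nat.mul_le_mul_right _ hlk.le
      have hlk2 : l * q ≤ k * q := Nat.mul_le_mul_right _ hlk.le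
      refine ⟨⟨(p, q), (k, l)⟩, ?_, ?_⟩
      · rw [mem_TT, mem_KI, mem_KI, mem_Icc, mem_Icc]
        refine ⟨⟨⟨⟨hp, ?_⟩, ⟨hq, ?_⟩⟩, hcop⟩, ⟨⟨?_, hk, ?_, ?_⟩, ⟨?_, hl, ?_, ?_⟩⟩, hlk⟩ <;>
          simp only <;> omega
      · apply Prod.ext
        · change (W0 - k * p) + (b - k * q) * n = x
          rw [show W0 - k * p = x0 by omega, show b - k * q = x1 by omega, hxe]
        · change (W0 - l * p) + (b - l * q) * n = z
          rw [show W0 - l * p = z0 by omega, show b - l * q = z1 by omega, hze]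
    · -- to the right
      left
      have hz0W : W0 ≤ z0 := by
        by_contra hcon
        push Not at hcon
        have h1 : ((x0 : ℤ) - W0) > 0 := by have : (W0 : ℤ) < x0 := by exact_mod_cast hgt
                                            linarith
        have h2 : ((z0 : ℤ) - W0) < 0 := by have : (z0 : ℤ) < W0 := by exact_mod_cast hcon
                                            linarith
        have h3 : ((x1 : ℤ) - b) < 0 := by
          have : (x1 : ℤ) < b := by exact_mod_cast (by omega : x1 < b)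
          linarith
        have h4 : ((z1 : ℤ) - b) ≤ 0 := by
          have : (z1 : ℤ) ≤ b := by exact_mod_cast hz1b
          linarith
        nlinarith [mul_nonneg h1.le (neg_nonneg.2 h4), mul_pos_of_neg_of_neg h2 h3]
      have hA : 0 < x0 - W0 := by omega
      have hAz : ((x0 - W0 : ℕ) : ℤ) = (x0 : ℤ) - W0 := Nat.cast_sub hgt.le
      have hAz' : ((z0 - W0 : ℕ) : ℤ) = (z0 : ℤ) - W0 := Nat.cast_sub hz0W
      have hprod : (z0 - W0) * (b - x1) = (x0 - W0) * (b - z1) := by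
        have : (((z0 - W0) * (b - x1) : ℕ) : ℤ) = (((x0 - W0) * (b - z1) : ℕ) : ℤ) := by
          rw [Nat.cast_mul, Nat.cast_mul, hCz, hCz', hAz, hAz']
          linear_combination hd
        exact_mod_cast this
      obtain ⟨p, q, k, l, hp, hq, hcop, hk, eA, eC, eA', eC'⟩ := ray hA hC hprod
      have hpk : p ≤ k * p := Nat.le_mul_of_pos_left _ hk
      have hqk : q ≤ k * q := Nat.le_mul_of_pos_left _ hk
      have hkk : k ≤ k * q := Nat.le_mul_of_pos_right _ hq
      have hl : 1 ≤ l := by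
        rcases Nat.eq_zero_or_pos l with h0 | h0
        · exfalso
          rw [h0, zero_mul] at eA' eC'
          have e1 : z0 = W0 := by omega
          have e2 : z1 = b := by omega
          have : z = w := by rw [← hze, ← hwe, e1, e2]
          omega
        · exact h0
      have hlk : l < k := by
        have h1 : l * q ≤ k * q := by omega
        have h2 : l ≤ k := Nat.le_of_mul_le_mul_right h1 hq
        refine lt_of_le_of_ne h2 (fun h => ?_)
        rw [h] at eA' eC'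
        have e1 : z0 = x0 := by omega
        have e2 : z1 = x1 := by omega
        have : z = x := by rw [← hze, ← hxe, e1, e2]
        omega
      have hlk1 : l * p ≤ k * p := Nat.mul_le_mul_right _ hlk.le
      have hlk2 : l * q ≤ k * q := Nat.mul_le_mul_right _ hlk.le
      refine ⟨⟨(p, q), (k, l)⟩, ?_, ?_⟩
      · rw [mem_TT, mem_KI, mem_KI, mem_Icc, mem_Icc]
        refine ⟨⟨⟨⟨hp, ?_⟩, ⟨hq, ?_⟩⟩, hcop⟩, ⟨⟨?_, hk, ?_, ?_⟩, ⟨?_, hl, ?_, ?_⟩⟩, hlk⟩ <;>
          simp only <;> omega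
      · apply Prod.ext
        · change (W0 + k * p) + (b - k * q) * n = x
          rw [show W0 + k * p = x0 by omega, show b - k * q = x1 by omega, hxe]
        · change (W0 + l * p) + (b - l * q) * n = z
          rw [show W0 + l * p = z0 by omega, show b - l * q = z1 by omega, hze]
  -- values on the images
  have hR : ∀ t ∈ TT n (n - 1 - W0) b, F (gR t) =
      rhoh (((b : ℝ) + 1 / 2 - t.2.1 * t.1.2) / n) * rhoh (((b : ℝ) + 1 / 2 - t.2.2 * t.1.2) / n)
      ∧ 0 ≤ F (gR t) := by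
    intro t ht
    rw [mem_TT, mem_KI, mem_KI] at ht
    obtain ⟨-, ⟨⟨-, -, h1, h2⟩, ⟨-, -, h3, h4⟩⟩, -⟩ := ht
    have a1 : W0 + t.2.1 * t.1.1 < n := by omega
    have a2 : W0 + t.2.2 * t.1.1 < n := by omega
    have e1 := rho_pt hw a1 h1
    have e2 := rho_pt hw a2 h3
    have p1 := rho_nonneg hn (lt_sq hw a1 (Nat.sub_le (w / n) (t.2.1 * t.1.2))).1
    have p2 := rho_nonneg hn (lt_sq hw a2 (Nat.sub_le (w / n) (t.2.2 * t.1.2))).1
    refine ⟨?_, mul_nonneg p1 p2⟩
    change rho n ((W0 + t.2.1 * t.1.1) + (w / n - t.2.1 * t.1.2) * n) *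
      rho n ((W0 + t.2.2 * t.1.1) + (w / n - t.2.2 * t.1.2) * n) = _
    rw [e1, e2]
  have hL : ∀ t ∈ TT n W0 b, F (gL t) =
      rhoh (((b : ℝ) + 1 / 2 - t.2.1 * t.1.2) / n) * rhoh (((b : ℝ) + 1 / 2 - t.2.2 * t.1.2) / n)
      ∧ 0 ≤ F (gL t) := by
    intro t ht
    rw [mem_TT, mem_KI, mem_KI] at ht
    obtain ⟨-, ⟨⟨-, -, h1, h2⟩, ⟨-, -, h3, h4⟩⟩, -⟩ := ht
    have a1 : W0 - t.2.1 * t.1.1 < n := by omega
    have a2 : W0 - t.2.2 * t.1.1 < n := by omega
    have e1 := rho_pt hw a1 h1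
    have e2 := rho_pt hw a2 h3
    have p1 := rho_nonneg hn (lt_sq hw a1 (Nat.sub_le (w / n) (t.2.1 * t.1.2))).1
    have p2 := rho_nonneg hn (lt_sq hw a2 (Nat.sub_le (w / n) (t.2.2 * t.1.2))).1
    refine ⟨?_, mul_nonneg p1 p2⟩
    change rho n ((W0 - t.2.1 * t.1.1) + (w / n - t.2.1 * t.1.2) * n) *
      rho n ((W0 - t.2.2 * t.1.1) + (w / n - t.2.2 * t.1.2) * n) = _
    rw [e1, e2]
  have hFimR : ∀ y ∈ (TT n (n - 1 - W0) b).image gR, 0 ≤ F y := by
    intro y hy
    obtain ⟨t, ht, rfl⟩ := mem_image.1 hy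
    exact (hR t ht).2
  have hFimL : ∀ y ∈ (TT n W0 b).image gL, 0 ≤ F y := by
    intro y hy
    obtain ⟨t, ht, rfl⟩ := mem_image.1 hy
    exact (hL t ht).2
  calc XX (Qup n M w) (fun p => rho n p.1 * rho n p.2) (range (n ^ 2))
      = ∑ y ∈ (Qup n M w).filter (fun q => q.1 ∈ range (n ^ 2) ∧ q.2 ∈ range (n ^ 2)), F y := rfl
    _ ≤ ∑ y ∈ (TT n (n - 1 - W0) b).image gR ∪ (TT n W0 b).image gL, F y := by
        apply Finset.sum_le_sum_of_subset_of_nonneg hsub
        intro y hy _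
        rcases mem_union.1 hy with h | h
        · exact hFimR y h
        · exact hFimL y h
    _ ≤ ∑ y ∈ (TT n (n - 1 - W0) b).image gR, F y + ∑ y ∈ (TT n W0 b).image gL, F y := by
        rw [← Finset.sum_union_inter]
        apply le_add_of_nonneg_right
        apply Finset.sum_nonneg
        intro y hy
        exact hFimR y (mem_inter.1 hy).1
    _ ≤ ∑ t ∈ TT n (n - 1 - W0) b, F (gR t) + ∑ t ∈ TT n W0 b, F (gL t) :=
        add_le_add (sum_image_le' _ _ _ fun t ht => (hR t ht).2)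
          (sum_image_le' _ _ _ fun t ht => (hL t ht).2)
    _ ≤ 1 / 2 * ∑ d ∈ (Icc 1 n ×ˢ Icc 1 n).filter (fun d => Nat.Coprime d.1 d.2),
          SS n (n - 1 - W0) b d.1 d.2 ^ 2 +
        1 / 2 * ∑ d ∈ (Icc 1 n ×ˢ Icc 1 n).filter (fun d => Nat.Coprime d.1 d.2),
          SS n W0 b d.1 d.2 ^ 2 := by
        apply add_le_add
        · rw [Finset.sum_congr rfl fun t ht => (hR t ht).1]
          exact sum_TT n (n - 1 - W0) b
        · rw [Finset.sum_congr rfl fun t ht => (hL t ht).1]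
          exact sum_TT n W0 b
    _ = _ := by rw [← mul_add, ← Finset.sum_add_distrib]

end

end GPG
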